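import Pool.Agent.P.MP_f027b3_co.Own

set_option autoImplicit false

namespace Pool.Agent.Results.MP_f027b3_co.Explicit

open Pool.Agent.P.MP_f027b3_co

/-- For every odd n at least 7 an explicit graph with 3n vertices and 5n edges has no good edge
labelling, while each of its proper subgraphs has one. -/
theorem result (n : ℕ) (hn : 7 ≤ n) (hodd : Odd n) :
    ∃ G : SimpleGraph (ZMod n × Option Bool),
      (∀ i j : ZMod n, (G.Adj (i, none) (j, none) ↔ (j = i + 1 ∨ i = j + 1)) ∧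
        (∀ b : Bool, G.Adj (i, none) (j, some b) ↔ (i = j ∨ i = j + 3)) ∧
        ∀ b c : Bool, ¬ G.Adj (i, some b) (j, some c)) ∧
      Nat.card (ZMod n × Option Bool) = 3 * n ∧ G.edgeSet.ncard = 5 * n ∧
      (¬ ∃ l : Sym2 (ZMod n × Option Bool) → ℝ, Set.InjOn l G.edgeSet ∧
        ∀ (u : ZMod n × Option Bool) (p : G.Walk u u), p.IsCycle →
          ∃ e₁ ∈ p.edges, ∃ e₂ ∈ p.edges, e₁ ≠ e₂ ∧
            (∀ e ∈ p.edges, e ≠ e₁ → (∃ v, v ∈ e ∧ v ∈ e₁) → l e < l e₁) ∧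
            (∀ e ∈ p.edges, e ≠ e₂ → (∃ v, v ∈ e ∧ v ∈ e₂) → l e < l e₂)) ∧
      ∀ H : G.Subgraph, H ≠ ⊤ → ∃ l : Sym2 H.verts → ℝ, Set.InjOn l H.coe.edgeSet ∧
        ∀ (u : H.verts) (p : H.coe.Walk u u), p.IsCycle →
          ∃ e₁ ∈ p.edges, ∃ e₂ ∈ p.edges, e₁ ≠ e₂ ∧
            (∀ e ∈ p.edges, e ≠ e₁ → (∃ v, v ∈ e ∧ v ∈ e₁) → l e < l e₁) ∧
            (∀ e ∈ p.edges, e ≠ e₂ → (∃ v, v ∈ e ∧ v ∈ e₂) → l e < l e₂) :=
  haveI : Fact (7 ≤ n) := ⟨hn⟩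
  ⟨Gr n, fun i j => ⟨adj_nn i j, adj_ns i j, adj_ss i j⟩, own_card, own_edge_card,
    own_not_good (Nat.odd_iff.1 hodd), own_proper (Nat.odd_iff.1 hodd)⟩

end Pool.Agent.Results.MP_f027b3_co.Explicit
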